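import Mathlib

/-!
# Derivations of `ℂ` and the exponential function: definitions
-/

set_option autoImplicit false

namespace Pool.Agent.helper82.Sch

open Complex

/-- derivations of the field of complex numbers -/
abbrev Der : Type := Derivation ℚ ℂ ℂ

/-- the field of constants of a set of derivations -/
noncomputable def con (Δ : Set Der) : IntermediateField ℚ ℂ where
  carrier := {a | ∀ D ∈ Δ, D a = 0}
  mul_mem' := by
    intro a b ha hb D hD
    rw [Derivation.leibniz, ha D hD, hb D hD]
    simp
  one_mem' := by
    intro D _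
    exact D.map_one_eq_zero
  add_mem' := by
    intro a b ha hb D hD
    rw [map_add, ha D hD, hb D hD, add_zero]
  zero_mem' := by
    intro D _
    exact map_zero D
  algebraMap_mem' := by
    intro r D _
    exact D.map_algebraMap r
  inv_mem' := by
    intro a ha D hD
    show D a⁻¹ = 0
    rw [Derivation.leibniz_inv, ha D hD, smul_zero]

theorem mem_con {Δ : Set Der} {a : ℂ} : a ∈ con Δ ↔ ∀ D ∈ Δ, D a = 0 := Iff.rfl

/-- the derivations which vanish on `K` -/
def derOver (K : Set ℂ) : Submodule ℂ Der where
  carrier := {D | ∀ a ∈ K, D a = 0}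
  add_mem' := by
    intro D E hD hE a ha
    rw [Derivation.add_apply, hD a ha, hE a ha, add_zero]
  zero_mem' := by
    intro a _
    rfl
  smul_mem' := by
    intro c D hD a ha
    rw [Derivation.smul_apply, hD a ha, smul_zero]

theorem mem_derOver {K : Set ℂ} {D : Der} : D ∈ derOver K ↔ ∀ a ∈ K, D a = 0 := Iff.rfl

/-- `∂ ↦ ∂ y - ∂ (exp y) / exp y` -/
noncomputable def theta (y : ℂ) : Der →ₗ[ℂ] ℂ where
  toFun D := D y - (exp y)⁻¹ * D (exp y)
  map_add' := by
    intro D E
    simp only [Derivation.add_apply]
    ring
  map_smul' := by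
    intro c D
    simp only [Derivation.smul_apply, smul_eq_mul, RingHom.id_apply]
    ring

theorem theta_apply (y : ℂ) (D : Der) : theta y D = D y - (exp y)⁻¹ * D (exp y) := rfl

theorem theta_eq_zero {y : ℂ} {D : Der} : theta y D = 0 ↔ D (exp y) = exp y * D y := by
  rw [theta_apply, sub_eq_zero, eq_comm, inv_mul_eq_iff_eq_mul₀ (exp_ne_zero y)]

/-- exponential derivations -/
def expDer : Set Der := {D | ∀ y, D (exp y) = exp y * D y}

/-- the common constants of all exponential derivations -/
noncomputable def C0 : IntermediateField ℚ ℂ := con expDer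

theorem mem_C0 {a : ℂ} : a ∈ C0 ↔ ∀ D ∈ expDer, D a = 0 := Iff.rfl

end Pool.Agent.helper82.Sch
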