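import Mathlib

/-!
# Extension of derivations to overfields in characteristic zero
-/

set_option autoImplicit false

namespace Pool.Agent.helper82.Sch

open TensorProduct

/-- a field of characteristic zero is formally smooth over each of its subrings which is
a `ℚ`-subfield -/
theorem smooth_field (K F : Type) [Field K] [Field F] [CharZero K] [Algebra K F] :
    Algebra.FormallySmooth K F := by
  obtain ⟨s, hs⟩ := exists_isTranscendenceBasis K F
  have h1 : Algebra.IsAlgebraic (IntermediateField.adjoin K (Set.range ((↑) : s → F))) F :=
    hs.isAlgebraic_field
  have h2 : CharZero (IntermediateField.adjoin K (Set.range ((↑) : s → F))) :=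
    charZero_of_injective_algebraMap (algebraMap K _).injective
  exact Algebra.FormallySmooth.of_algebraicIndependent_of_isSeparable hs.1

theorem smooth_domain (A F : Type) [CommRing A] [IsDomain A] [Field F] [CharZero F]
    [Algebra A F] (hinj : Function.Injective (algebraMap A F)) :
    Algebra.FormallySmooth A F := by
  have hf : FaithfulSMul A F := (faithfulSMul_iff_algebraMap_injective A F).2 hinj
  let _ : Algebra (FractionRing A) F := FractionRing.liftAlgebra A F
  have ht : IsScalarTower A (FractionRing A) F := FractionRing.isScalarTower_liftAlgebra A F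
  have hc : CharZero (FractionRing A) := by
    refine ⟨fun m n h => ?_⟩
    have := congrArg (algebraMap (FractionRing A) F) h
    simpa using this
  have h1 : Algebra.FormallySmooth A (FractionRing A) :=
    .of_isLocalization (nonZeroDivisors A)
  have h2 := smooth_field (FractionRing A) F
  exact .comp A (FractionRing A) F

/-- derivations with values in a field of characteristic zero extend to this field -/
theorem ext_der {R A F : Type} [CommRing R] [CommRing A] [IsDomain A] [Field F] [CharZero F]
    [Algebra R A] [Algebra A F] [Algebra R F] [IsScalarTower R A F]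
    (hinj : Function.Injective (algebraMap A F)) (d : Derivation R A F) :
    ∃ D : Derivation R F F, ∀ a, D (algebraMap A F a) = d a := by
  have h1 := smooth_domain A F hinj
  have h2 : Subsingleton (Algebra.H1Cotangent A F) := inferInstance
  have hi : Function.Injective (KaehlerDifferential.mapBaseChange R A F) := by
    rw [injective_iff_map_eq_zero]
    intro x hx
    obtain ⟨x, rfl⟩ := (Algebra.H1Cotangent.exact_δ_mapBaseChange R A F x).mp hx
    rw [Subsingleton.elim x 0, map_zero]
  obtain ⟨g, hg⟩ := LinearMap.exists_leftInverse_of_injective
    (KaehlerDifferential.mapBaseChange R A F) (LinearMap.ker_eq_bot.2 hi)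
  let l : Ω[A⁄R] →ₗ[A] F := d.liftKaehlerDifferential
  refine ⟨((l.liftBaseChange F).comp g).compDer (KaehlerDifferential.D R F), fun a => ?_⟩
  have h3 : KaehlerDifferential.mapBaseChange R A F (1 ⊗ₜ KaehlerDifferential.D R A a)
      = KaehlerDifferential.D R F (algebraMap A F a) := by
    rw [KaehlerDifferential.mapBaseChange_tmul, one_smul, KaehlerDifferential.map_D]
  show (l.liftBaseChange F) (g (KaehlerDifferential.D R F (algebraMap A F a))) = d a
  rw [← h3]
  have h4 := LinearMap.congr_fun hg (1 ⊗ₜ KaehlerDifferential.D R A a)
  have h5 : g (KaehlerDifferential.mapBaseChange R A F (1 ⊗ₜ KaehlerDifferential.D R A a))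
      = 1 ⊗ₜ KaehlerDifferential.D R A a := h4
  rw [h5, LinearMap.liftBaseChange_tmul, one_smul]
  exact d.liftKaehlerDifferential_comp_D a

end Pool.Agent.helper82.Sch
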