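import Mathlib
import Pool.Agent.helper82.Sch.Defs
import Pool.Agent.helper82.Sch.Ext
import Pool.Agent.helper82.Sch.Reg

/-!
# Residues (Rosenlicht's lemma)
-/

set_option autoImplicit false

namespace Pool.Agent.helper82.Sch

open Polynomial Complex

theorem charZero_sub (k : Type) [Field k] [Algebra k ℂ] : CharZero k :=
  ⟨fun m n h => by
    have := congrArg (algebraMap k ℂ) h
    simpa using this⟩

/-- the logarithmic derivative of a product -/
theorem logder_prod {k : Type} [Field k] [Algebra k ℂ] (D : Derivation k ℂ ℂ) {ι : Type}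
    (S : Finset ι) (a : ι → ℂ) (h : ∀ i ∈ S, a i ≠ 0) :
    (∏ i ∈ S, a i)⁻¹ * D (∏ i ∈ S, a i) = ∑ i ∈ S, (a i)⁻¹ * D (a i) := by
  classical
  induction S using Finset.induction_on with
  | empty => simp
  | insert i S hi ih =>
    rw [Finset.prod_insert hi, Finset.sum_insert hi, ← ih fun j hj => h j (by simp [hj]),
      Derivation.leibniz]
    have h1 : a i ≠ 0 := h i (by simp)
    have h2 : ∏ j ∈ S, a j ≠ 0 := Finset.prod_ne_zero_iff.2 fun j hj => h j (by simp [hj])
    simp only [smul_eq_mul]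
    field_simp
    ring

/-- the derivation `d / d x` -/
theorem exists_ddx {k : Type} [Field k] [Algebra k ℂ] {x : ℂ} (hx : Transcendental k x) :
    ∃ D : Derivation k ℂ ℂ, D x = 1 := by
  let _ : Algebra k[X] ℂ := (aeval x : k[X] →ₐ[k] ℂ).toAlgebra
  have ht : IsScalarTower k k[X] ℂ := IsScalarTower.of_algebraMap_eq fun c => by
    show algebraMap k ℂ c = aeval x (algebraMap k k[X] c)
    simp
  obtain ⟨D, hD⟩ := ext_der (R := k) (A := k[X]) (F := ℂ) (transcendental_iff_injective.1 hx)
    (Polynomial.mkDerivation k (1 : ℂ))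
  refine ⟨D, ?_⟩
  have h1 := hD X
  rw [Polynomial.mkDerivation_X] at h1
  have h2 : algebraMap k[X] ℂ X = x := by
    show aeval x X = x
    simp
  rwa [h2] at h1

theorem der_mem {k : Type} [Field k] [Algebra k ℂ] {x : ℂ} (D : Derivation k ℂ ℂ)
    (hD : D x = 1) {r : ℂ} (hr : r ∈ IntermediateField.adjoin k {x}) :
    D r ∈ IntermediateField.adjoin k {x} := by
  induction hr using IntermediateField.adjoin_induction with
  | mem y hy =>
    rw [Set.mem_singleton_iff.1 hy, hD]
    exact one_mem _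
  | algebraMap c =>
    rw [D.map_algebraMap]
    exact zero_mem _
  | add y z _ _ h1 h2 =>
    rw [map_add]
    exact add_mem h1 h2
  | inv y hy h1 =>
    rw [Derivation.leibniz_inv, smul_eq_mul]
    exact mul_mem (neg_mem (pow_mem (inv_mem hy) 2)) h1
  | mul y z hy hz h1 h2 =>
    rw [Derivation.leibniz, smul_eq_mul, smul_eq_mul]
    exact add_mem (mul_mem hy h2) (mul_mem hz h1)

/-- homomorphisms commute with the derivation -/
theorem hom_comm {k : Type} [Field k] [Algebra k ℂ] {x : ℂ} (D : Derivation k ℂ ℂ)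
    (hD : D x = 1) [Algebra.IsAlgebraic (IntermediateField.adjoin k {x}) ℂ]
    (τ : ℂ →ₐ[IntermediateField.adjoin k {x}] ℂ) (m : ℂ) : τ (D m) = D (τ m) := by
  let _ : Differential ℂ := ⟨D.restrictScalars ℤ⟩
  let dR : Derivation ℤ (IntermediateField.adjoin k {x}) (IntermediateField.adjoin k {x}) :=
    Derivation.mk'
      { toFun := fun r => ⟨D r, der_mem D hD r.2⟩
        map_add' := fun a b => Subtype.ext (by
          show D ((a : ℂ) + b) = D a + D b
          exact map_add D _ _)
        map_smul' := fun n a => Subtype.ext (by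
          show D ((n • a : IntermediateField.adjoin k {x}) : ℂ) = _
          simp) }
      (fun a b => Subtype.ext (by
        show D ((a : ℂ) * b) = _
        rw [Derivation.leibniz]
        rfl))
  let _ : Differential (IntermediateField.adjoin k {x}) := ⟨dR⟩
  have _ : DifferentialAlgebra (IntermediateField.adjoin k {x}) ℂ := ⟨fun a => rfl⟩
  have : CharZero (IntermediateField.adjoin k {x}) := charZero_sub _
  exact Differential.algHom_deriv' τ τ.toRingHom.injective m

theorem residue_aux {k : Type} [Field k] [Algebra k ℂ] {x : ℂ} (hx : Transcendental k x)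
    [halg : Algebra.IsAlgebraic (IntermediateField.adjoin k {x}) ℂ] {ι : Type} [Fintype ι]
    (e : ι → ℂ) (he : ∀ j, ∃ c : k, algebraMap k ℂ c = e j) (hli : LinearIndependent ℚ e)
    (Z : ι → ℂ) (hZ : ∀ j, Z j ≠ 0) (v : ℂ)
    (h : ∀ D : Derivation k ℂ ℂ, D v = ∑ j, e j * ((Z j)⁻¹ * D (Z j))) (j0 : ι) (hj : Z j0 = x) :
    False := by
  classical
  obtain ⟨D, hD⟩ := exists_ddx hx
  have hx0 : x ≠ 0 := by
    rintro rfl
    exact hx isAlgebraic_zero
  set R0 := IntermediateField.adjoin k {x} with hR0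
  have : CharZero R0 := charZero_sub _
  set M0 : IntermediateField R0 ℂ := IntermediateField.adjoin R0 (Set.range Z ∪ {v}) with hM0
  have hfin : FiniteDimensional R0 M0 := by
    have : Finite ↑(Set.range Z ∪ {v}) :=
      ((Set.finite_range Z).union (Set.finite_singleton v)).to_subtype
    exact IntermediateField.finiteDimensional_adjoin fun y _ => halg.isAlgebraic y |>.isIntegral
  have hZM : ∀ j, Z j ∈ M0 := fun j =>
    IntermediateField.subset_adjoin R0 _ (Or.inl ⟨j, rfl⟩)
  have hvM : v ∈ M0 := IntermediateField.subset_adjoin R0 _ (Or.inr rfl)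
  -- conjugates
  have hrel : ∀ σ : M0 →ₐ[R0] ℂ,
      D (σ ⟨v, hvM⟩) = ∑ j, e j * ((σ ⟨Z j, hZM j⟩)⁻¹ * D (σ ⟨Z j, hZM j⟩)) := by
    intro σ
    have : Algebra.IsAlgebraic M0 ℂ := Algebra.IsAlgebraic.tower_top (K := R0) M0
    obtain ⟨τ, hτ⟩ := IsAlgClosed.surjective_domRestrict_of_isAlgebraic (K := R0) (L := M0)
      (M := ℂ) (E := ℂ) σ
    have hτ' : ∀ m : M0, τ (m : ℂ) = σ m := fun m => by
      rw [← hτ]; rfl
    have h1 := congrArg τ (h D)
    rw [hom_comm D hD τ] at h1
    rw [← hτ', h1, map_sum]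
    refine Finset.sum_congr rfl fun j _ => ?_
    obtain ⟨c, hc⟩ := he j
    have h2 : τ (e j) = e j := by
      rw [← hc]
      exact τ.commutes (algebraMap k R0 c)
    rw [map_mul, map_mul, map_inv₀, hom_comm D hD τ, h2, ← hτ']
  have hσ0 : ∀ (σ : M0 →ₐ[R0] ℂ) j, σ ⟨Z j, hZM j⟩ ≠ 0 := by
    intro σ j h0
    rw [map_eq_zero] at h0
    exact hZ j (congrArg Subtype.val h0)
  -- trace and norm
  set w : ℂ := ∑ σ : M0 →ₐ[R0] ℂ, σ ⟨v, hvM⟩ with hw
  set r : ι → ℂ := fun j => ∏ σ : M0 →ₐ[R0] ℂ, σ ⟨Z j, hZM j⟩ with hr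
  have hwR : w ∈ R0 := by
    rw [hw, ← trace_eq_sum_embeddings ℂ (K := R0) (L := M0)]
    exact (Algebra.trace R0 M0 _).2
  have hrR : ∀ j, r j ∈ R0 := by
    intro j
    rw [hr]
    beta_reduce
    rw [← Algebra.norm_eq_prod_embeddings R0 ℂ]
    exact (Algebra.norm R0 _).2
  have hr0 : ∀ j, r j ≠ 0 := fun j => Finset.prod_ne_zero_iff.2 fun σ _ => hσ0 σ j
  have hmain : D w = ∑ j, e j * ((r j)⁻¹ * D (r j)) := by
    rw [hw, map_sum]
    simp only [hrel]
    rw [Finset.sum_comm]
    refine Finset.sum_congr rfl fun j _ => ?_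
    rw [← Finset.mul_sum, hr]
    beta_reduce
    rw [logder_prod D _ _ fun σ _ => hσ0 σ j]
  -- orders
  have hord : ∀ j, ∃ n : ℤ, Reg k x (x * ((r j)⁻¹ * D (r j))) n := fun j =>
    exists_ord hx D hD (hrR j) (hr0 j)
  choose n hn using hord
  have hreg : Reg k x (x * D w) (∑ j, e j * n j) := by
    rw [hmain, Finset.mul_sum]
    refine Reg.sum _ fun j _ => ?_
    obtain ⟨c, hc⟩ := he j
    have h1 := (Reg.const (k := k) x c).mul (hn j)
    rw [hc] at h1
    have e1 : x * (e j * ((r j)⁻¹ * D (r j))) = e j * (x * ((r j)⁻¹ * D (r j))) := by ring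
    rw [e1]
    exact h1
  have hsum := reg_xD hx D hD hwR hreg
  have hn0 : ∀ j, n j = 0 := by
    have h1 : ∑ j, (n j : ℚ) • e j = 0 := by
      rw [← hsum]
      refine Finset.sum_congr rfl fun j _ => ?_
      rw [Algebra.smul_def]
      simp [mul_comm]
    intro j
    have := Fintype.linearIndependent_iff.1 hli _ h1 j
    exact_mod_cast this
  -- the order of `x ^ d`
  have hrj : r j0 = x ^ (Finset.univ : Finset (M0 →ₐ[R0] ℂ)).card := by
    rw [hr]
    beta_reduce
    rw [Finset.prod_congr rfl (g := fun _ => x), Finset.prod_const]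
    intro σ _
    have e1 : (⟨Z j0, hZM j0⟩ : M0) =
        algebraMap R0 M0 ⟨x, IntermediateField.mem_adjoin_simple_self k x⟩ :=
      Subtype.ext hj
    rw [e1, σ.commutes]
    rfl
  have hcard : 0 < (Finset.univ : Finset (M0 →ₐ[R0] ℂ)).card := by
    rw [Finset.card_pos]
    exact ⟨M0.val, Finset.mem_univ _⟩
  set d := (Finset.univ : Finset (M0 →ₐ[R0] ℂ)).card with hd
  have h1 := hn j0
  rw [hn0 j0, hrj] at h1
  have e2 : x * ((x ^ d)⁻¹ * D (x ^ d)) = (d : ℂ) := by
    obtain ⟨d', hd'⟩ : ∃ d', d = d' + 1 := ⟨d - 1, by omega⟩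
    rw [hd', Derivation.leibniz_pow, hD]
    simp only [smul_eq_mul, nsmul_eq_mul, Nat.add_sub_cancel]
    rw [pow_succ]
    field_simp
  rw [e2] at h1
  have h2 : Reg k x (d : ℂ) (d : ℂ) := by
    have := Reg.const (k := k) x (d : k)
    simpa using this
  have h3 := h1.unique hx h2
  simp only [Int.cast_zero] at h3
  have h4 : (d : ℂ) = 0 := h3.symm
  rw [Nat.cast_eq_zero] at h4
  omega

theorem residue (K : IntermediateField ℚ ℂ) (hK : ∀ a : ℂ, IsAlgebraic K a → a ∈ K)
    {ι : Type} [Fintype ι] (e : ι → ℂ) (he : ∀ j, e j ∈ K) (hli : LinearIndependent ℚ e)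
    (Z : ι → ℂ) (hZ : ∀ j, Z j ≠ 0) (v : ℂ)
    (h : ∀ D ∈ derOver (K : Set ℂ), D v = ∑ j, e j * ((Z j)⁻¹ * D (Z j))) : ∀ j, Z j ∈ K := by
  classical
  intro j0
  by_contra hcon
  set x := Z j0 with hxdef
  have hx : Transcendental K x := fun ha => hcon (hK x ha)
  have h1 : AlgebraicIndepOn K id {x} := by
    have h0 : AlgebraicIndependent K (fun i : ({x} : Set ℂ) => (i : ℂ)) := by
      rw [algebraicIndependent_singleton_iff (⟨x, rfl⟩ : ({x} : Set ℂ))]
      exact hx
    exact h0
  obtain ⟨t, hxt, ht⟩ := exists_isTranscendenceBasis_superset h1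
  have hxt' : x ∈ t := hxt rfl
  set K' : IntermediateField K ℂ := IntermediateField.adjoin K (t \ {x}) with hK'
  have hx' : Transcendental K' x := by
    rw [hK', IntermediateField.transcendental_adjoin_iff]
    have := ht.1.transcendental_adjoin (s := {y | (y : ℂ) ≠ x}) (i := ⟨x, hxt'⟩) (by simp)
    have e1 : ((↑) : t → ℂ) '' {y | (y : ℂ) ≠ x} = t \ {x} := by
      ext y
      constructor
      · rintro ⟨y, hy, rfl⟩
        exact ⟨y.2, hy⟩
      · rintro ⟨hy, hyx⟩
        exact ⟨⟨y, hy⟩, hyx, rfl⟩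
    rw [e1] at this
    exact this
  have halg : Algebra.IsAlgebraic (IntermediateField.adjoin K' {x}) ℂ := by
    have h2 := ht.isAlgebraic_field
    have hle : ∀ y ∈ IntermediateField.adjoin K (Set.range ((↑) : t → ℂ)),
        y ∈ IntermediateField.adjoin K' {x} := by
      intro y hy
      have h3 : IntermediateField.adjoin K (Set.range ((↑) : t → ℂ)) ≤
          (IntermediateField.adjoin K' {x}).restrictScalars K := by
        rw [IntermediateField.adjoin_le_iff]
        rintro _ ⟨y, rfl⟩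
        by_cases hy : (y : ℂ) = x
        · rw [hy]
          exact IntermediateField.mem_adjoin_simple_self K' x
        · have h4 : (y : ℂ) ∈ K' := IntermediateField.subset_adjoin K _ ⟨y.2, hy⟩
          exact (IntermediateField.adjoin K' {x}).algebraMap_mem ⟨(y : ℂ), h4⟩
      exact h3 hy
    let ι' : IntermediateField.adjoin K (Set.range ((↑) : t → ℂ)) →+*
        IntermediateField.adjoin K' {x} :=
      { toFun := fun y => ⟨y, hle y y.2⟩
        map_one' := rfl
        map_mul' := fun _ _ => rfl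
        map_zero' := rfl
        map_add' := fun _ _ => rfl }
    let _ := ι'.toAlgebra
    have _ : IsScalarTower (IntermediateField.adjoin K (Set.range ((↑) : t → ℂ)))
        (IntermediateField.adjoin K' {x}) ℂ := IsScalarTower.of_algebraMap_eq fun _ => rfl
    exact Algebra.IsAlgebraic.tower_top
      (K := IntermediateField.adjoin K (Set.range ((↑) : t → ℂ))) _
  refine residue_aux hx' e (fun j => ?_) hli Z hZ v (fun D => ?_) j0 rfl
  · exact ⟨algebraMap K K' ⟨e j, he j⟩, rfl⟩
  · have h5 : (D.restrictScalars ℚ : Der) ∈ derOver (K : Set ℂ) := by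
      intro a ha
      have := D.map_algebraMap (algebraMap K K' ⟨a, ha⟩)
      exact this
    exact h _ h5

end Pool.Agent.helper82.Sch
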