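import Mathlib
import Pool.Agent.helper82.Sch.Residue

/-!
# Ax's theorem for the exponential function of `ℂ` and a set of derivations
-/

set_option autoImplicit false

namespace Pool.Agent.helper82.Sch

open Polynomial Complex

/-- a derivation vanishing on `K` is a derivation over `K` -/
noncomputable def toOver (K : IntermediateField ℚ ℂ) (D : Der) (hD : D ∈ derOver (K : Set ℂ)) :
    Derivation K ℂ ℂ :=
  Derivation.mk'
    { toFun := fun a => D a
      map_add' := fun a b => map_add D a b
      map_smul' := fun c a => by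
        show D ((c : ℂ) * a) = (c : ℂ) * D a
        rw [Derivation.leibniz, hD c c.2]
        simp }
    (fun a b => D.leibniz a b)

theorem toOver_apply (K : IntermediateField ℚ ℂ) (D : Der) (hD : D ∈ derOver (K : Set ℂ))
    (a : ℂ) : toOver K D hD a = D a := rfl

/-- derivations vanishing on `K` vanish on the algebraic closure of `K` -/
theorem der_alg {K : IntermediateField ℚ ℂ} {D : Der} (hD : D ∈ derOver (K : Set ℂ)) {a : ℂ}
    (ha : IsAlgebraic K a) : D a = 0 := by
  have hi := ha.isIntegral
  have h1 := Derivation.map_aeval (toOver K D hD) (minpoly K a) a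
  rw [minpoly.aeval, map_zero, toOver_apply] at h1
  have h2 : aeval a (derivative (minpoly K a)) ≠ 0 := by
    have hs : (minpoly K a).Separable := (minpoly.irreducible hi).separable
    exact hs.aeval_derivative_ne_zero (minpoly.aeval K a)
  rw [smul_eq_mul] at h1
  rcases mul_eq_zero.1 h1.symm with h | h
  · exact absurd h h2
  · exact h

theorem con_alg {Δ : Set Der} {a : ℂ} (ha : IsAlgebraic (con Δ) a) : a ∈ con Δ := fun D hD =>
  der_alg (K := con Δ) (fun _ hb => hb D hD) ha

/-- `y ↦ D (exp y) / exp y` -/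
noncomputable def lam (D : Der) : ℂ →+ ℂ where
  toFun y := (exp y)⁻¹ * D (exp y)
  map_zero' := by simp
  map_add' := by
    intro y z
    rw [exp_add, Derivation.leibniz]
    have h1 := exp_ne_zero y
    have h2 := exp_ne_zero z
    simp only [smul_eq_mul]
    field_simp
    ring

theorem lam_apply (D : Der) (y : ℂ) : lam D y = (exp y)⁻¹ * D (exp y) := rfl

theorem theta_eq (D : Der) (y : ℂ) : theta y D = D y - lam D y := rfl

theorem lam_eq_iff (D : Der) (y : ℂ) : lam D y = D y ↔ D (exp y) = exp y * D y := by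
  rw [lam_apply, inv_mul_eq_iff_eq_mul₀ (exp_ne_zero y)]

theorem lam_int {ι : Type} (S : Finset ι) (D : Der) (m : ι → ℤ) (y : ι → ℂ) :
    lam D (∑ i ∈ S, (m i : ℂ) * y i) = ∑ i ∈ S, (m i : ℂ) * lam D (y i) := by
  rw [map_sum]
  refine Finset.sum_congr rfl fun i _ => ?_
  rw [← zsmul_eq_mul, map_zsmul, zsmul_eq_mul]

theorem der_int {ι : Type} (S : Finset ι) (D : Der) (m : ι → ℤ) (y : ι → ℂ) :
    D (∑ i ∈ S, (m i : ℂ) * y i) = ∑ i ∈ S, (m i : ℂ) * D (y i) := by
  rw [map_sum]
  refine Finset.sum_congr rfl fun i _ => ?_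
  rw [← zsmul_eq_mul, map_zsmul, zsmul_eq_mul]

/-- common denominators -/
theorem exists_int_basis {ι : Type} [Fintype ι] (g : ι → ℂ) :
    ∃ (r : ℕ) (e : Fin r → ℂ) (m : ι → Fin r → ℤ), LinearIndependent ℚ e ∧
      (∀ j, e j ∈ Submodule.span ℚ (Set.range g)) ∧ ∀ i, g i = ∑ j, (m i j : ℂ) * e j := by
  classical
  have hfin : FiniteDimensional ℚ (Submodule.span ℚ (Set.range g)) :=
    FiniteDimensional.span_of_finite ℚ (Set.finite_range g)
  set b := Module.finBasis ℚ (Submodule.span ℚ (Set.range g)) with hb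
  set q : ι → Fin _ → ℚ := fun i j =>
    b.repr ⟨g i, Submodule.subset_span ⟨i, rfl⟩⟩ j with hq
  set N : ℕ := ∏ i, ∏ j, (q i j).den with hN
  have hN0 : N ≠ 0 := Finset.prod_ne_zero_iff.2 fun i _ =>
    Finset.prod_ne_zero_iff.2 fun j _ => (q i j).den_ne_zero
  have hdvd : ∀ i j, (q i j).den ∣ N := fun i j =>
    (Finset.dvd_prod_of_mem (fun j => (q i j).den) (Finset.mem_univ j)).trans
      (Finset.dvd_prod_of_mem (fun i => ∏ j, (q i j).den) (Finset.mem_univ i))
  have hint : ∀ i j, ∃ m : ℤ, (m : ℚ) = q i j * N := by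
    intro i j
    obtain ⟨c, hc⟩ := hdvd i j
    refine ⟨(q i j).num * c, ?_⟩
    rw [hc]
    push_cast
    rw [← mul_assoc, Rat.mul_den_eq_num]
  choose m hm using hint
  refine ⟨_, fun j => (N : ℚ)⁻¹ • ((b j : Submodule.span ℚ (Set.range g)) : ℂ), m, ?_, ?_, ?_⟩
  · have h1 : LinearIndependent ℚ (fun j => ((b j : Submodule.span ℚ (Set.range g)) : ℂ)) :=
      b.linearIndependent.map' (Submodule.subtype _) (Submodule.ker_subtype _)
    have hu : IsUnit ((N : ℚ)⁻¹) := by
      rw [isUnit_iff_ne_zero]
      exact inv_ne_zero (by exact_mod_cast hN0)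
    have := h1.units_smul (fun _ => hu.unit)
    refine this
  · intro j
    exact Submodule.smul_mem _ _ (b j).2
  · intro i
    have h1 := b.sum_repr ⟨g i, Submodule.subset_span ⟨i, rfl⟩⟩
    have h2 := congrArg (Subtype.val) h1
    simp only [Submodule.coe_sum, Submodule.coe_smul] at h2
    rw [← h2]
    refine Finset.sum_congr rfl fun j _ => ?_
    have h3 : ((m i j : ℤ) : ℂ) = ((q i j : ℚ) : ℂ) * N := by
      have := congrArg (fun t : ℚ => (t : ℂ)) (hm i j)
      push_cast at this
      exact this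
    have hNC : (N : ℂ) ≠ 0 := by exact_mod_cast hN0
    show (q i j) • ((b j : Submodule.span ℚ (Set.range g)) : ℂ) =
      ((m i j : ℤ) : ℂ) * ((N : ℚ)⁻¹ • ((b j : Submodule.span ℚ (Set.range g)) : ℂ))
    rw [h3, Algebra.smul_def, Algebra.smul_def]
    simp only [eq_ratCast, Rat.cast_inv, Rat.cast_natCast]
    field_simp

theorem theta_comm {D E : Der} {y : ℂ}
    (hy : D (exp y) = exp y * D y) : D (theta y E) = theta y ⁅D, E⁆ := by
  rw [theta_apply, theta_apply, Derivation.commutator_apply, Derivation.commutator_apply, hy,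
    map_sub, Derivation.leibniz, Derivation.leibniz, Derivation.leibniz_inv, hy]
  have h1 := exp_ne_zero y
  simp only [smul_eq_mul]
  field_simp
  ring

theorem ax_indep (Δ : Set Der) {ι : Type} [Fintype ι] (y : ι → ℂ)
    (hy : ∀ D ∈ Δ, ∀ i, D (exp (y i)) = exp (y i) * D (y i))
    (hli : ∀ c : ι → ℤ, ∑ i, (c i : ℂ) * y i ∈ con Δ → c = 0) (f : ι → ℂ)
    (hf : ∀ D ∈ derOver (con Δ : Set ℂ), ∑ i, f i * theta (y i) D = 0) : f = 0 := by
  classical
  by_contra hne
  -- minimal relation
  let P : ℕ → Prop := fun n => ∃ f : ι → ℂ, f ≠ 0 ∧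
    (∀ D ∈ derOver (con Δ : Set ℂ), ∑ i, f i * theta (y i) D = 0) ∧
    (Finset.univ.filter fun i => f i ≠ 0).card = n
  have hP : ∃ n, P n := ⟨_, f, hne, hf, rfl⟩
  obtain ⟨g, hg0, hg, hgc⟩ := Nat.find_spec hP
  have hmin : ∀ h : ι → ℂ, (∀ D ∈ derOver (con Δ : Set ℂ), ∑ i, h i * theta (y i) D = 0) →
      (Finset.univ.filter fun i => h i ≠ 0).card < Nat.find hP → h = 0 := by
    intro h hh hlt
    by_contra hcon
    exact Nat.find_min hP hlt ⟨h, hcon, hh, rfl⟩
  obtain ⟨i0, hi0⟩ : ∃ i, g i ≠ 0 := by
    by_contra hcon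
    push Not at hcon
    exact hg0 (funext hcon)
  set k : ι → ℂ := fun i => (g i0)⁻¹ * g i with hk
  have hk1 : k i0 = 1 := inv_mul_cancel₀ hi0
  have hkr : ∀ D ∈ derOver (con Δ : Set ℂ), ∑ i, k i * theta (y i) D = 0 := by
    intro D hD
    simp only [hk, mul_assoc]
    rw [← Finset.mul_sum, hg D hD, mul_zero]
  have hkc : ∀ i, k i ∈ con Δ := by
    intro i D hD
    have h1 : (fun i => D (k i)) = 0 := by
      apply hmin
      · intro E hE
        have h2 : ⁅D, E⁆ ∈ derOver (con Δ : Set ℂ) := by
          intro a ha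
          rw [Derivation.commutator_apply, hE a ha, (mem_con.1 ha) D hD, map_zero, map_zero,
            sub_zero]
        have h3 := congrArg D (hkr E hE)
        rw [map_sum, map_zero] at h3
        have h4 := hkr _ h2
        have h5 : ∀ i, D (k i * theta (y i) E) =
            D (k i) * theta (y i) E + k i * theta (y i) ⁅D, E⁆ := by
          intro i
          rw [Derivation.leibniz, theta_comm (hy D hD i)]
          simp only [smul_eq_mul]
          ring
        simp only [h5, Finset.sum_add_distrib, h4, add_zero] at h3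
        exact h3
      · rw [← hgc]
        apply Finset.card_lt_card
        rw [Finset.ssubset_iff_of_subset]
        · refine ⟨i0, by simp [hi0], ?_⟩
          simp [hk1]
        · intro j hj
          simp only [Finset.mem_filter, Finset.mem_univ, true_and] at hj ⊢
          intro h0
          apply hj
          simp [hk, h0]
    exact congrFun h1 i
  -- rational basis of the coefficients
  obtain ⟨r, e, m, he, hes, hm⟩ := exists_int_basis k
  have hec : ∀ j, e j ∈ con Δ := by
    intro j
    have hle : Submodule.span ℚ (Set.range k) ≤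
        (con Δ).toSubalgebra.toSubmodule := by
      rw [Submodule.span_le]
      rintro _ ⟨i, rfl⟩
      exact hkc i
    exact hle (hes j)
  have hres := residue (con Δ) (fun a ha => con_alg ha) e hec he
    (fun j => exp (∑ i, (m i j : ℂ) * y i)) (fun j => exp_ne_zero _) (∑ i, k i * y i) (by
      intro D hD
      have h1 : D (∑ i, k i * y i) = ∑ i, k i * D (y i) := by
        rw [map_sum]
        refine Finset.sum_congr rfl fun i _ => ?_
        rw [Derivation.leibniz, hD (k i) (hkc i)]
        simp
      have h2 : ∑ i, k i * D (y i) = ∑ i, k i * lam D (y i) := by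
        have h3 := hkr D hD
        simp only [theta_eq, mul_sub, Finset.sum_sub_distrib] at h3
        exact sub_eq_zero.1 h3
      rw [h1, h2]
      have h4 : ∀ j, (exp (∑ i, (m i j : ℂ) * y i))⁻¹ * D (exp (∑ i, (m i j : ℂ) * y i))
          = ∑ i, (m i j : ℂ) * lam D (y i) := by
        intro j
        rw [← lam_apply, lam_int]
      simp only [h4, Finset.mul_sum]
      rw [Finset.sum_comm]
      refine Finset.sum_congr rfl fun i _ => ?_
      rw [hm i, Finset.sum_mul]
      refine Finset.sum_congr rfl fun j _ => ?_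
      ring)
  have hzero : ∀ j, (fun i => m i j) = 0 := by
    intro j
    apply hli
    intro D hD
    have h1 := hres j D hD
    rw [der_int]
    have h2 : lam D (∑ i, (m i j : ℂ) * y i) = 0 := by
      rw [lam_apply, h1, mul_zero]
    rw [lam_int] at h2
    rw [← h2]
    refine Finset.sum_congr rfl fun i _ => ?_
    rw [(lam_eq_iff D (y i)).2 (hy D hD i)]
  have h1 := hm i0
  rw [hk1] at h1
  have h2 : ∀ j, m i0 j = 0 := fun j => congrFun (hzero j) i0
  simp [h2] at h1

end Pool.Agent.helper82.Sch
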