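import Mathlib
import Pool.Agent.helper82.Sch.Ax

/-!
# Ax's inequality over the constants of all exponential derivations
-/

set_option autoImplicit false

namespace Pool.Agent.helper82.Sch

open Complex

/-- a derivation over `K` killing `T` kills what is algebraic over `K(T)` -/
theorem der_closure {K : IntermediateField ℚ ℂ} {D : Der} (hD : D ∈ derOver (K : Set ℂ))
    {T : Set ℂ} (hT : ∀ t ∈ T, D t = 0) {g : ℂ} (hg : IsAlgebraic (Algebra.adjoin K T) g) :
    D g = 0 := by
  have hle : ∀ a : Algebra.adjoin K T, (a : ℂ) ∈ con {D} := by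
    intro a
    obtain ⟨a, ha⟩ := a
    show a ∈ con {D}
    induction ha using Algebra.adjoin_induction with
    | mem x hx =>
      intro E hE
      rw [Set.mem_singleton_iff.1 hE]
      exact hT x hx
    | algebraMap r =>
      intro E hE
      rw [Set.mem_singleton_iff.1 hE]
      exact hD _ r.2
    | add x y _ _ hx hy => exact add_mem hx hy
    | mul x y _ _ hx hy => exact mul_mem hx hy
  let ι : Algebra.adjoin K T →+* con {D} :=
    { toFun := fun a => ⟨a, hle a⟩
      map_one' := rfl
      map_mul' := fun _ _ => rfl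
      map_zero' := rfl
      map_add' := fun _ _ => rfl }
  let _ : Algebra (Algebra.adjoin K T) (con {D}) := ι.toAlgebra
  have _ : IsScalarTower (Algebra.adjoin K T) (con {D}) ℂ :=
    IsScalarTower.of_algebraMap_eq fun _ => rfl
  have hinj : Function.Injective (algebraMap (Algebra.adjoin K T) (con {D})) := by
    intro a b hab
    exact Subtype.ext (congrArg (fun x : con {D} => (x : ℂ)) hab)
  have h1 : IsAlgebraic (con {D}) g := hg.extendScalars hinj
  exact con_alg h1 D rfl

theorem exp_der_mem {D : Der} (hD : D ∈ expDer) : D ∈ derOver (C0 : Set ℂ) := fun _ ha =>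
  (mem_C0.1 ha) D hD

theorem ax_rank {n : ℕ} (hn : 0 < n) (y : Fin n → ℂ)
    (hli : ∀ c : Fin n → ℤ, ∑ i, (c i : ℂ) * y i ∈ C0 → c = 0) :
    ∃ w : Fin (n + 1) → ℂ, (∀ i, w i ∈ Set.range y ∪ Set.range (fun i => exp (y i))) ∧
      AlgebraicIndependent C0 w := by
  classical
  set G : Set ℂ := Set.range y ∪ Set.range (fun i => exp (y i)) with hG
  have hGfin : G.Finite := (Set.finite_range _).union (Set.finite_range _)
  obtain ⟨T, hT⟩ := (AlgebraicIndependent.matroid C0 ℂ).exists_isBasis G
  have hTG : T ⊆ G := hT.subset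
  have hTfin : T.Finite := hGfin.subset hTG
  have hTind := hT.indep
  rw [AlgebraicIndependent.matroid_indep_iff] at hTind
  have hGT : ∀ g ∈ G, IsAlgebraic (Algebra.adjoin C0 T) g := by
    intro g hg
    have h1 : g ∈ (AlgebraicIndependent.matroid C0 ℂ).closure T := by
      rw [hT.closure_eq_closure]
      exact (AlgebraicIndependent.matroid C0 ℂ).subset_closure G (by simp) hg
    rw [AlgebraicIndependent.matroid_closure_eq] at h1
    exact h1
  have : Fintype T := hTfin.fintype
  -- the evaluation map
  let P : Submodule ℂ Der := derOver (C0 : Set ℂ)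
  let Φ : P →ₗ[ℂ] (T → ℂ) :=
    { toFun := fun D t => (D : Der) (t : ℂ)
      map_add' := fun _ _ => rfl
      map_smul' := fun _ _ => rfl }
  have hker : ∀ D : P, Φ D = 0 → ∀ g ∈ G, (D : Der) g = 0 := by
    intro D hD g hg
    refine der_closure D.2 (T := T) (fun t ht => ?_) (hGT g hg)
    exact congrFun hD ⟨t, ht⟩
  let th : Fin n → Module.Dual ℂ P := fun i => (theta (y i)).comp P.subtype
  have hth : LinearIndependent ℂ th := by
    rw [Fintype.linearIndependent_iff]
    intro f hf
    have h1 := ax_indep expDer y (fun D hD i => hD (y i)) hli f (by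
      intro D hD
      have h2 := LinearMap.congr_fun hf (⟨D, hD⟩ : P)
      simp only [LinearMap.sum_apply, LinearMap.smul_apply, smul_eq_mul,
        LinearMap.zero_apply] at h2
      exact h2)
    exact fun i => congrFun h1 i
  have hann : ∀ i, ∃ φ : Module.Dual ℂ (T → ℂ), Φ.dualMap φ = th i := by
    intro i
    have h1 : th i ∈ (LinearMap.ker Φ).dualAnnihilator := by
      rw [Submodule.mem_dualAnnihilator]
      intro D hD
      have h2 := hker D (LinearMap.mem_ker.1 hD)
      show theta (y i) (D : Der) = 0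
      rw [theta_apply, h2 _ (Or.inl ⟨i, rfl⟩), h2 _ (Or.inr ⟨i, rfl⟩)]
      simp
    rw [← LinearMap.range_dualMap_eq_dualAnnihilator_ker] at h1
    exact h1
  choose φ hφ using hann
  have hφli : LinearIndependent ℂ φ := by
    apply LinearIndependent.of_comp Φ.dualMap
    have : Φ.dualMap ∘ φ = th := funext hφ
    rw [this]
    exact hth
  -- an exponential derivation which does not vanish
  obtain ⟨D0, hD0, hD0y⟩ : ∃ D ∈ expDer, D (y ⟨0, hn⟩) ≠ 0 := by
    by_contra hcon
    push Not at hcon
    have h1 := hli (Pi.single ⟨0, hn⟩ 1) (by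
      have e : ∑ i, (((Pi.single ⟨0, hn⟩ 1 : Fin n → ℤ) i : ℤ) : ℂ) * y i = y ⟨0, hn⟩ := by
        rw [Finset.sum_eq_single ⟨0, hn⟩]
        · simp
        · intro b _ hb
          simp [Pi.single_eq_of_ne hb]
        · simp
      rw [e]
      exact hcon)
    have h2 := congrFun h1 ⟨0, hn⟩
    simp at h2
  set v : T → ℂ := Φ ⟨D0, exp_der_mem hD0⟩ with hv
  have hv0 : v ≠ 0 := by
    intro h0
    exact hD0y (hker _ h0 _ (Or.inl ⟨_, rfl⟩))
  have hφv : ∀ i, φ i ∈ (Submodule.span ℂ {v}).dualAnnihilator := by
    intro i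
    rw [Submodule.mem_dualAnnihilator]
    intro u hu
    obtain ⟨c, rfl⟩ := Submodule.mem_span_singleton.1 hu
    have h1 := LinearMap.congr_fun (hφ i) (⟨D0, exp_der_mem hD0⟩ : P)
    have h2 : φ i v = theta (y i) D0 := h1
    rw [map_smul, h2, theta_eq_zero.2 (hD0 (y i)), smul_zero]
  have hcard : n + 1 ≤ Fintype.card T := by
    have h1 : LinearIndependent ℂ
        (fun i => (⟨φ i, hφv i⟩ : (Submodule.span ℂ {v}).dualAnnihilator)) := by
      apply LinearIndependent.of_comp (Submodule.subtype _)
      exact hφli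
    have h2 := h1.fintype_card_le_finrank
    have h3 := Subspace.finrank_add_finrank_dualAnnihilator_eq (Submodule.span ℂ {v})
    rw [finrank_span_singleton hv0, Module.finrank_fintype_fun_eq_card] at h3
    rw [Fintype.card_fin] at h2
    omega
  obtain ⟨em⟩ : Nonempty (Fin (n + 1) ↪ T) :=
    Function.Embedding.nonempty_of_card_le (by rwa [Fintype.card_fin])
  refine ⟨fun i => (em i : ℂ), fun i => hTG (em i).2, ?_⟩
  exact hTind.comp em em.injective

end Pool.Agent.helper82.Sch
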